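import Mathlib
import Pool.Agent.W188.QS.Stm2

set_option autoImplicit false

/-!
# Project EM: mixed moments of zeta (helper188)

For `1 ≤ m ≤ k` the mixed moment `∫ ζ^{k+m} conj(ζ)^{k-m} g` with a Gaussian weight `g` of width about
`T / √(log T)` is at most `cos(π/(⌊(k-2)/m⌋+2)) + ε` times the moment `∫ |ζ|^{2k} g`.
-/

open Complex MeasureTheory Set Filter Topology

namespace Pool.Agent.W188.EM

open Pool.Agent.W188.QS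

/-- COAV: if the discrete sums over the `N` lines are nearly the same number `M` for all directions, then the `N`-th
Fourier coefficient is small -/
def StCoav : Prop := ∀ (N : ℕ) (f : ℝ → ℝ) (a b E M : ℝ), 1 ≤ N → Continuous f → 100 < a → a ≤ b →
  (∀ c : ℂ, ‖c‖ = 1 → |2 * Real.pi / N * (∑ᶠ t ∈ PP c N ∩ Ioo a b, f t / lam t) - M| ≤ E) →
  ‖∫ t in a..b, (f t : ℂ) * XX (cp t) ^ N‖ ≤ E

/-- FEJ: a nonnegative trigonometric polynomial -/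
def StFej : Prop := ∀ (p : ℕ) (ε : ℝ), 1 ≤ p → 0 < ε → ∃ (R : ℕ) (κ : ℕ → ℝ), 1 ≤ R ∧
  κ 0 = Real.cos (Real.pi / (p + 2)) ∧ κ 1 ≤ -(1 - ε) / 2 ∧ (∀ j : ℕ, 2 ≤ j → j ≤ p → κ j = 0) ∧
  ∀ x : ℝ, 0 ≤ κ 0 + 2 * ∑ j ∈ Finset.Icc 1 R, κ j * Real.cos (j * x)

/-- POSI: consequence for a weight and a phase of modulus one -/
def StPosi : Prop := ∀ (p : ℕ) (ε : ℝ), 1 ≤ p → 0 < ε → ε < 1 → ∃ (R : ℕ) (K : ℝ), 1 ≤ R ∧ 0 ≤ K ∧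
  ∀ (f : ℝ → ℝ) (X : ℝ → ℂ) (a b δ : ℝ), a ≤ b → Continuous f → Continuous X → (∀ t, 0 ≤ f t) → (∀ t, ‖X t‖ = 1) →
  (∀ j : ℕ, p + 1 ≤ j → j ≤ R → ‖∫ t in a..b, (f t : ℂ) * X t ^ j‖ ≤ δ) →
  ‖∫ t in a..b, (f t : ℂ) * X t‖ ≤ (Real.cos (Real.pi / (p + 2)) + ε) * (∫ t in a..b, f t) + K * δ

end Pool.Agent.W188.EM
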