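import Pool.Agent.W188.EM.Asm
import Pool.Agent.W188.QS.All
import Pool.Agent.W237.EM.Fej
import Pool.Agent.W237.EM.Posi
import Pool.Agent.W168.EM.Coav
import Pool.Agent.W903.GP.CO
import Pool.Agent.W32.GP.Tau

set_option autoImplicit false

/-! All parts of project EM, proved by the team (see the individual files). -/

namespace Pool.Agent.W188.EM

theorem a_fej : StFej := Pool.Agent.W237.EM.em_fej
theorem a_posi : StPosi := Pool.Agent.W237.EM.em_posi a_fej
theorem a_coav : StCoav := Pool.Agent.W168.EM.em_coav Pool.Agent.W32.GPT.gp_tau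
  (Pool.Agent.W903.GP.CO.gp_co Pool.Agent.W32.GPT.gp_tau) Pool.Agent.W188.QS.a_line

end Pool.Agent.W188.EM
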