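import Pool.Agent.W188.EM.Stm
import Pool.Agent.W188.QS.Asm3

set_option autoImplicit false

/-! Assembly of project EM (helper188). -/

open Complex MeasureTheory Set Filter Topology

namespace Pool.Agent.W188.EM

open Pool.Agent.W188.QS

theorem nearU (hQ : StQuad) (hS : StQS) {k N : ℕ}
    (hk : 1 ≤ k) (hN : 1 ≤ N) (hkN : k ≤ N + 1) : ∃ B₀ : ℝ, 1 ≤ B₀ ∧ ∀ B : ℝ, B₀ ≤ B → ∃ C T₀ : ℝ, 0 < C ∧
      ∀ (c : ℂ) (T Δ : ℝ), ‖c‖ = 1 → T₀ ≤ T → 0 < Δ → T ≤ 4 * B * Δ * √(Real.log T) →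
      B * Δ * √(Real.log T) ≤ T →
      |(∑ᶠ t ∈ PP c N ∩ Ioo (T / 2) (3 * T / 2), rho k N t * gg T Δ t) -
        ∫ t in (T / 2)..(3 * T / 2), Zk k t * gg T Δ t| ≤ C * Δ * Real.log T ^ qe k N := by
  obtain ⟨B1, T1, hB1, hT1, h1⟩ := hQ k N hN
  obtain ⟨B2, C2, T2, hB2, hC2, h2⟩ := hS k N hk hN hkN
  refine ⟨max B1 B2, hB1.trans (le_max_left _ _), fun B hB => ?_⟩
  have hBB1 : B1 ≤ B := (le_max_left _ _).trans hB
  have hBB2 : B2 ≤ B := (le_max_right _ _).trans hB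
  have hB0 : 1 ≤ B := hB1.trans hBB1
  obtain ⟨T3, h3⟩ := eventually_atTop.1 (ev_log_le B)
  refine ⟨2 * C2 * (1 + 4 * B) + 1, max (max T1 T2) (max T3 200), by positivity, fun c T Δ hc hT hΔ hu hl => ?_⟩
  have hTT1 : T1 ≤ T := ((le_max_left _ _).trans (le_max_left _ _)).trans hT
  have hTT2 : T2 ≤ T := ((le_max_right _ _).trans (le_max_left _ _)).trans hT
  have hTT3 : T3 ≤ T := ((le_max_left _ _).trans (le_max_right _ _)).trans hT
  have hT200 : 200 ≤ T := ((le_max_right _ _).trans (le_max_right _ _)).trans hT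
  have hT0 : 0 < T := by linarith
  have hL : 1 ≤ Real.log T := by
    rw [Real.le_log_iff_exp_le hT0]
    have := Real.exp_one_lt_d9
    linarith
  have hs0 : 0 < √(Real.log T) := Real.sqrt_pos.2 (by linarith)
  have hLD : Real.log T ≤ Δ := by
    have h4 := (h3 T hTT3).trans hu
    have h5 : 4 * B * Real.log T * √(Real.log T) = Real.log T * (4 * B * √(Real.log T)) := by ring
    have h6 : 4 * B * Δ * √(Real.log T) = Δ * (4 * B * √(Real.log T)) := by ring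
    rw [h5, h6] at h4
    exact le_of_mul_le_mul_right h4 (by positivity)
  have hD1 : 1 ≤ Δ := hL.trans hLD
  have hb1 : B1 * Δ * √(Real.log T) ≤ T := by
    refine le_trans ?_ hl
    gcongr
  have hb2 : B2 * Δ * √(Real.log T) ≤ T := by
    refine le_trans ?_ hl
    gcongr
  have h7 := h1 c T Δ _ hc hTT1 hD1 hb1
    (fun a b ha hb => h2 c T Δ a b hc hTT2 hLD hb2 ha hb)
  refine h7.trans ?_
  have hT3 : T ^ (-(3 : ℝ)) ≤ 1 := Real.rpow_le_one_of_one_le_of_nonpos (by linarith) (by norm_num)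
  unfold qe
  split_ifs with hN1
  · -- N + 1 = k
    have hk2 : 2 ≤ k := by omega
    have hpow : Real.log T ^ (2 * k - 1) * √(Real.log T) = Real.log T ^ (2 * (k : ℝ) - 1 / 2) := by
      rw [Real.sqrt_eq_rpow, ← Real.rpow_natCast, ← Real.rpow_add (by linarith)]
      congr 1
      rw [Nat.cast_sub (by omega)]
      push_cast
      ring
    have hp1 : 1 ≤ Real.log T ^ (2 * (k : ℝ) - 1 / 2) := by
      apply Real.one_le_rpow hL
      have : (2 : ℝ) ≤ k := by exact_mod_cast hk2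
      linarith
    have h8 : T * Real.log T ^ (2 * k - 1) ≤ 4 * B * Δ * Real.log T ^ (2 * (k : ℝ) - 1 / 2) := by
      rw [← hpow]
      calc T * Real.log T ^ (2 * k - 1) ≤ (4 * B * Δ * √(Real.log T)) * Real.log T ^ (2 * k - 1) :=
            mul_le_mul_of_nonneg_right hu (by positivity)
        _ = _ := by ring
    set P := Real.log T ^ (2 * (k : ℝ) - 1 / 2)
    have h9 : Δ ≤ Δ * P := le_mul_of_one_le_right hΔ.le hp1
    have h10 : (1 : ℝ) ≤ Δ * P := hD1.trans h9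
    have h11 : 2 * (C2 * (Δ + T * Real.log T ^ (2 * k - 1))) ≤ 2 * (C2 * (Δ * P + 4 * B * Δ * P)) := by
      gcongr
    calc 2 * (C2 * (Δ + T * Real.log T ^ (2 * k - 1))) + T ^ (-(3 : ℝ))
        ≤ 2 * (C2 * (Δ * P + 4 * B * Δ * P)) + Δ * P := by linarith
      _ = _ := by ring
  · rw [Real.rpow_zero, mul_one, add_zero]
    have h8 : 0 ≤ 2 * C2 * (4 * B) * Δ := by positivity
    nlinarith


lemma fin_PP (hL : StLine) {c : ℂ} {N : ℕ} (hc : ‖c‖ = 1) (hN : 1 ≤ N) (a b : ℝ) :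
    (PP c N ∩ Ioo a b).Finite :=
  (hL.2.2.2.2.2.2.2.2.2 c N hc hN b).subset (inter_subset_inter_right _ (fun _ h => h.2.le))

lemma XX_cp_cont : Continuous fun t : ℝ => XX (cp t) := by
  rw [continuous_iff_continuousAt]
  intro t
  have hre : (cp t).re = 1 / 2 := by simp [cp]
  have h1 : ContinuousAt (fun s : ℂ => XX s) (cp t) := by
    unfold XX
    have h2 : (2 * (Real.pi : ℂ)) ≠ 0 := by
      simp [Real.pi_ne_zero]
    have hG : DifferentiableAt ℂ Gamma (cp t) := by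
      apply differentiableAt_Gamma
      intro m hm
      have := congrArg Complex.re hm
      rw [hre] at this
      simp at this
      have h0 : (0 : ℝ) ≤ m := Nat.cast_nonneg m
      linarith
    have h3 : ContinuousAt (fun s : ℂ => (2 * (Real.pi : ℂ)) ^ (-s)) (cp t) :=
      (continuousAt_const_cpow h2).comp continuous_neg.continuousAt
    exact ((continuousAt_const.mul h3).mul hG.continuousAt).mul (by fun_prop)
  have h4 : Continuous cp := by unfold cp; fun_prop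
  exact h1.comp h4.continuousAt

/-- the Fourier coefficients -/
noncomputable def AA (k N : ℕ) (T Δ : ℝ) : ℂ :=
  ∫ t in (T / 2)..(3 * T / 2), ((Zk k t * gg T Δ t : ℝ) : ℂ) * XX (cp t) ^ N

/-- the moment -/
noncomputable def A0 (k : ℕ) (T Δ : ℝ) : ℝ := ∫ t in (T / 2)..(3 * T / 2), Zk k t * gg T Δ t

theorem mixed (h0 : StCoav) (hL : StLine) (hQ : StQuad) (hS : StQS) {k N : ℕ}
    (hk : 1 ≤ k) (hN : 1 ≤ N) (hkN : k ≤ N + 1) : ∃ B₀ : ℝ, 1 ≤ B₀ ∧ ∀ B : ℝ, B₀ ≤ B → ∃ C T₀ : ℝ, 0 < C ∧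
      ∀ (T Δ : ℝ), T₀ ≤ T → 0 < Δ → T ≤ 4 * B * Δ * √(Real.log T) →
      B * Δ * √(Real.log T) ≤ T → ‖AA k N T Δ‖ ≤ C * Δ * Real.log T ^ qe k N := by
  obtain ⟨B₀, hB₀, h⟩ := nearU hQ hS hk hN hkN
  refine ⟨B₀, hB₀, fun B hB => ?_⟩
  obtain ⟨C, T₀, hC, h1⟩ := h B hB
  refine ⟨C, max T₀ 201, hC, fun T Δ hT hΔ hu hl => ?_⟩
  have hT1 : T₀ ≤ T := (le_max_left _ _).trans hT
  have hT2 : 201 ≤ T := (le_max_right _ _).trans hT
  refine h0 N (fun t => Zk k t * gg T Δ t) (T / 2) (3 * T / 2) (C * Δ * Real.log T ^ qe k N)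
    (∫ t in (T / 2)..(3 * T / 2), Zk k t * gg T Δ t) hN ((Zk_cont k).mul (gg_cont T Δ))
    (by linarith) (by linarith) (fun c hc => ?_)
  have h2 := h1 c T Δ hc hT1 hΔ hu hl
  have h3 : 2 * Real.pi / N * (∑ᶠ t ∈ PP c N ∩ Ioo (T / 2) (3 * T / 2), Zk k t * gg T Δ t / lam t) =
      ∑ᶠ t ∈ PP c N ∩ Ioo (T / 2) (3 * T / 2), rho k N t * gg T Δ t := by
    rw [finsum_mem_eq_finite_toFinset_sum _ (fin_PP hL hc hN _ _),
      finsum_mem_eq_finite_toFinset_sum _ (fin_PP hL hc hN _ _), Finset.mul_sum]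
    apply Finset.sum_congr rfl
    intro t _
    simp only [rho]
    ring
  rw [h3]
  exact h2

/-- local lower bound -/
theorem lowloc {k : ℕ} (hk : 1 ≤ k) : ∃ c T₀ : ℝ, 0 < c ∧ ∀ T Δ : ℝ, T₀ ≤ T → √T ≤ Δ → Δ ≤ T / 2 →
    c * (Δ * Real.log T ^ ((k : ℝ) ^ 2)) ≤ A0 k T Δ := by
  have hk1 : (1 : ℝ) ≤ k := by exact_mod_cast hk
  obtain ⟨c0, K, hc0, _, h⟩ := Pool.Agent.W181.Mom.uniform_real 1 one_pos (by
    rw [lt_div_iff₀ (Real.exp_pos 1)]
    have := Real.exp_one_lt_d9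
    linarith)
  obtain ⟨B, hB, h2⟩ := h k hk1 c0 (Or.inl le_rfl)
  have haF := Pool.Agent.H306R2.aF_pos (by linarith : 0 < (k : ℝ))
  have hG : 0 < Real.Gamma ((k : ℝ) ^ 2 + 1) := Real.Gamma_pos_of_pos (by positivity)
  set c1 : ℝ := Pool.Agent.H306R2.aF (k : ℝ) * (c0 * (1 ^ ((k : ℝ) ^ 2) / Real.Gamma ((k : ℝ) ^ 2 + 1)))
    with hc1
  have hc1p : 0 < c1 := by rw [hc1]; positivity
  have hsmall : ∀ᶠ T : ℝ in atTop, Real.log T ^ B ≤ √T := by
    have h1 := (isLittleO_log_rpow_rpow_atTop B (by norm_num : (0 : ℝ) < 1 / 2)).bound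
      (by norm_num : (0 : ℝ) < 1)
    filter_upwards [h1, eventually_ge_atTop 1] with T hT hT1
    rw [one_mul, ← Real.sqrt_eq_rpow, Real.norm_of_nonneg (Real.rpow_nonneg (Real.log_nonneg hT1) B),
      Real.norm_of_nonneg (Real.sqrt_nonneg _)] at hT
    exact hT
  obtain ⟨T₀, hT₀⟩ := eventually_atTop.1 (h2.and hsmall)
  refine ⟨Real.exp (-1) * (c1 * (1 / 2) ^ ((k : ℝ) ^ 2)), max T₀ 4, by positivity, fun T Δ hT hD hD2 => ?_⟩
  have hTT : T₀ ≤ T := (le_max_left _ _).trans hT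
  have hT4 : 4 ≤ T := (le_max_right _ _).trans hT
  obtain ⟨h3, h4⟩ := hT₀ T hTT
  have h5 := h3 Δ (h4.trans hD)
  have hs1 : 1 ≤ √T := by
    rw [Real.one_le_sqrt]; linarith
  have hD0 : 0 < Δ := by linarith
  have hlogT : 0 < Real.log T := Real.log_pos (by linarith)
  have hlog : Real.log T / 2 ≤ Real.log Δ := by
    have : Real.log (√T) = Real.log T / 2 := Real.log_sqrt (by linarith)
    rw [← this]
    exact Real.log_le_log (by linarith) hD
  have h6 : (1 / 2) ^ ((k : ℝ) ^ 2) * Real.log T ^ ((k : ℝ) ^ 2) ≤ Real.log Δ ^ ((k : ℝ) ^ 2) := by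
    rw [← Real.mul_rpow (by norm_num) hlogT.le]
    apply Real.rpow_le_rpow (by positivity) (by linarith) (by positivity)
  have h7 : ∫ t in T..(T + Δ), ‖riemannZeta (1 / 2 + t * Complex.I)‖ ^ (2 * (k : ℝ)) =
      ∫ t in T..(T + Δ), Zk k t := by
    apply intervalIntegral.integral_congr
    intro t _
    exact Zk_eq k t
  rw [h7] at h5
  have hg : ∀ t ∈ Icc T (T + Δ), Real.exp (-1) * Zk k t ≤ Zk k t * gg T Δ t := by
    intro t ht
    rw [mul_comm]
    apply mul_le_mul_of_nonneg_left _ (Zk_nonneg k t)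
    unfold gg
    apply Real.exp_le_exp.2
    have h8 : (t - T) / Δ ≤ 1 := by
      rw [div_le_one hD0]; linarith [ht.2]
    have h9 : 0 ≤ (t - T) / Δ := div_nonneg (by linarith [ht.1]) hD0.le
    nlinarith
  have h8 : Real.exp (-1) * ∫ t in T..(T + Δ), Zk k t ≤ ∫ t in T..(T + Δ), Zk k t * gg T Δ t := by
    rw [← intervalIntegral.integral_const_mul]
    apply intervalIntegral.integral_mono_on (by linarith) ((Continuous.intervalIntegrable (by
      exact continuous_const.mul (Zk_cont k))) _ _)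
      ((Continuous.intervalIntegrable ((Zk_cont k).mul (gg_cont T Δ))) _ _) hg
  have h9 : ∫ t in T..(T + Δ), Zk k t * gg T Δ t ≤ A0 k T Δ := by
    unfold A0
    apply intervalIntegral.integral_mono_interval (by linarith) (by linarith) (by linarith)
    · refine Filter.Eventually.of_forall fun t => ?_
      exact mul_nonneg (Zk_nonneg k t) (Real.exp_pos _).le
    · exact (Continuous.intervalIntegrable ((Zk_cont k).mul (gg_cont T Δ))) _ _
  calc Real.exp (-1) * (c1 * (1 / 2) ^ ((k : ℝ) ^ 2)) * (Δ * Real.log T ^ ((k : ℝ) ^ 2))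
      = Real.exp (-1) * (c1 * (Δ * ((1 / 2) ^ ((k : ℝ) ^ 2) * Real.log T ^ ((k : ℝ) ^ 2)))) := by ring
    _ ≤ Real.exp (-1) * (c1 * (Δ * Real.log Δ ^ ((k : ℝ) ^ 2))) := by gcongr
    _ ≤ Real.exp (-1) * ∫ t in T..(T + Δ), Zk k t := mul_le_mul_of_nonneg_left h5 (Real.exp_pos _).le
    _ ≤ _ := h8.trans h9

lemma window {B : ℝ} (hB : 1 ≤ B) : ∀ᶠ T : ℝ in atTop, ∀ Δ : ℝ, 0 < Δ → T ≤ 4 * B * Δ * √(Real.log T) →
    B * Δ * √(Real.log T) ≤ T → √T ≤ Δ ∧ Δ ≤ T / 2 := by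
  have h1 := (isLittleO_log_rpow_rpow_atTop 1 (by norm_num : (0 : ℝ) < 1)).bound
    (by positivity : (0 : ℝ) < 1 / (4 * B) ^ 2)
  filter_upwards [h1, eventually_ge_atTop (Real.exp 4)] with T h2 h3 Δ hΔ hu hl
  have hT0 : 0 < T := (Real.exp_pos 4).trans_le h3
  have hL : 4 ≤ Real.log T := by
    rw [Real.le_log_iff_exp_le hT0]; exact h3
  rw [Real.rpow_one, Real.rpow_one, Real.norm_of_nonneg (by linarith), Real.norm_of_nonneg hT0.le] at h2
  have hs2 : 2 ≤ √(Real.log T) := by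
    rw [Real.le_sqrt (by norm_num) (by linarith)]; linarith
  have h4 : (4 * B * √(Real.log T)) ≤ √T := by
    have : √((4 * B) ^ 2 * Real.log T) ≤ √T := by
      apply Real.sqrt_le_sqrt
      rw [one_div, ← div_eq_inv_mul, le_div_iff₀ (by positivity)] at h2
      linarith
    rwa [Real.sqrt_mul (by positivity), Real.sqrt_sq (by positivity)] at this
  have hsT : 0 < √T := Real.sqrt_pos.2 hT0
  constructor
  · have h5 : T ≤ Δ * √T := by
      calc T ≤ 4 * B * Δ * √(Real.log T) := hu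
        _ = Δ * (4 * B * √(Real.log T)) := by ring
        _ ≤ Δ * √T := mul_le_mul_of_nonneg_left h4 hΔ.le
    have h6 : √T * √T = T := Real.mul_self_sqrt hT0.le
    nlinarith
  · have : 1 * Δ * 2 ≤ B * Δ * √(Real.log T) := by gcongr
    linarith

theorem small (h0 : StCoav) (hL : StLine) (hQ : StQuad) (hS : StQS) {k N : ℕ}
    (hk : 1 ≤ k) (hN : 1 ≤ N) (hkN : k ≤ N + 1) : ∃ B₀ : ℝ, 1 ≤ B₀ ∧ ∀ B : ℝ, B₀ ≤ B → ∀ δ : ℝ, 0 < δ →
      ∀ᶠ T : ℝ in atTop, ∀ Δ : ℝ, 0 < Δ → T ≤ 4 * B * Δ * √(Real.log T) →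
      B * Δ * √(Real.log T) ≤ T → ‖AA k N T Δ‖ ≤ δ * A0 k T Δ := by
  obtain ⟨B₀, hB₀, h⟩ := mixed h0 hL hQ hS hk hN hkN
  refine ⟨B₀, hB₀, fun B hB δ hδ => ?_⟩
  obtain ⟨C, T₀, hC, h1⟩ := h B hB
  obtain ⟨c, T₁, hc, h2⟩ := lowloc hk
  have hq := qe_lt hk hN
  have h3 : ∀ᶠ T : ℝ in atTop, C * Real.log T ^ qe k N ≤ δ * c * Real.log T ^ ((k : ℝ) ^ 2) := by
    have h4 : Tendsto (fun T : ℝ => Real.log T ^ ((k : ℝ) ^ 2 - qe k N)) atTop atTop :=
      (tendsto_rpow_atTop (by linarith)).comp Real.tendsto_log_atTop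
    filter_upwards [h4.eventually_ge_atTop (C / (δ * c)), eventually_gt_atTop 1] with T h5 h6
    have hl : 0 < Real.log T := Real.log_pos h6
    rw [div_le_iff₀ (by positivity)] at h5
    have h7 : Real.log T ^ ((k : ℝ) ^ 2) = Real.log T ^ ((k : ℝ) ^ 2 - qe k N) * Real.log T ^ qe k N := by
      rw [← Real.rpow_add hl]
      congr 1
      ring
    rw [h7]
    calc C * Real.log T ^ qe k N ≤ (Real.log T ^ ((k : ℝ) ^ 2 - qe k N) * (δ * c)) * Real.log T ^ qe k N :=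
          mul_le_mul_of_nonneg_right h5 (by positivity)
      _ = _ := by ring
  filter_upwards [h3, window (hB₀.trans hB), eventually_ge_atTop T₀, eventually_ge_atTop T₁] with
    T h4 h5 h6 h7 Δ hΔ hu hl
  obtain ⟨h8, h9⟩ := h5 Δ hΔ hu hl
  calc ‖AA k N T Δ‖ ≤ C * Δ * Real.log T ^ qe k N := h1 T Δ h6 hΔ hu hl
    _ = Δ * (C * Real.log T ^ qe k N) := by ring
    _ ≤ Δ * (δ * c * Real.log T ^ ((k : ℝ) ^ 2)) := mul_le_mul_of_nonneg_left h4 hΔ.le
    _ = δ * (c * (Δ * Real.log T ^ ((k : ℝ) ^ 2))) := by ring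
    _ ≤ _ := mul_le_mul_of_nonneg_left (h2 T Δ h7 h8 h9) hδ.le

/-- the main inequality for the Fourier coefficients -/
theorem main (h0 : StCoav) (hP : StPosi) (hL : StLine) (hQ : StQuad) (hS : StQS) {k m : ℕ}
    (hk : 1 ≤ k) (hm : 1 ≤ m) {ε : ℝ} (hε : 0 < ε) : ∃ B₀ : ℝ, 1 ≤ B₀ ∧ ∀ B : ℝ, B₀ ≤ B →
      ∀ᶠ T : ℝ in atTop, ∀ Δ : ℝ, 0 < Δ → T ≤ 4 * B * Δ * √(Real.log T) →
      B * Δ * √(Real.log T) ≤ T →
      ‖AA k m T Δ‖ ≤ (Real.cos (Real.pi / (((k - 2) / m : ℕ) + 2)) + ε) * A0 k T Δ := by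
  rcases Nat.eq_zero_or_pos ((k - 2) / m) with hp | hp
  · -- directly
    have hkm : k ≤ m + 1 := by
      rw [Nat.div_eq_zero_iff] at hp
      omega
    obtain ⟨B₀, hB₀, h⟩ := small h0 hL hQ hS hk hm hkm
    refine ⟨B₀, hB₀, fun B hB => ?_⟩
    filter_upwards [h B hB ε hε] with T hT Δ hΔ hu hl
    rw [hp]
    have : Real.pi / (((0 : ℕ) : ℝ) + 2) = Real.pi / 2 := by norm_num
    rw [this, Real.cos_pi_div_two, zero_add]
    exact hT Δ hΔ hu hl
  · set p := (k - 2) / m with hpd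
    obtain ⟨R, K, hR, hK, h⟩ := hP p (min (ε / 2) (1 / 2)) hp (by positivity)
      ((min_le_right _ _).trans_lt (by norm_num))
    have hj : ∀ j ∈ Finset.Icc (p + 1) R, ∃ B₀ : ℝ, 1 ≤ B₀ ∧ ∀ B : ℝ, B₀ ≤ B → ∀ δ : ℝ, 0 < δ →
      ∀ᶠ T : ℝ in atTop, ∀ Δ : ℝ, 0 < Δ → T ≤ 4 * B * Δ * √(Real.log T) →
      B * Δ * √(Real.log T) ≤ T → ‖AA k (m * j) T Δ‖ ≤ δ * A0 k T Δ := by
      intro j hj
      rw [Finset.mem_Icc] at hj
      apply small h0 hL hQ hS hk (Nat.mul_pos hm (by omega))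
      have h1 : k - 2 < m * (p + 1) := by
        rw [hpd]
        have := Nat.lt_mul_div_succ (k - 2) hm
        simpa using this
      have h2 : m * (p + 1) ≤ m * j := Nat.mul_le_mul_left m hj.1
      omega
    choose! B₀ hB₀ hB₁ using hj
    obtain ⟨B', hB'⟩ := Finset.bddAbove (Finset.image B₀ (Finset.Icc (p + 1) R))
    refine ⟨max B' 1, le_max_right _ _, fun B hB => ?_⟩
    have hδ : 0 < ε / (2 * (K + 1)) := by positivity
    have hall : ∀ᶠ T : ℝ in atTop, ∀ j ∈ Finset.Icc (p + 1) R, ∀ Δ : ℝ, 0 < Δ →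
        T ≤ 4 * B * Δ * √(Real.log T) → B * Δ * √(Real.log T) ≤ T →
        ‖AA k (m * j) T Δ‖ ≤ ε / (2 * (K + 1)) * A0 k T Δ := by
      rw [Filter.eventually_all_finset]
      intro j hj
      refine hB₁ j hj B ?_ _ hδ
      have := hB' (Finset.mem_coe.2 (Finset.mem_image_of_mem B₀ hj))
      exact this.trans ((le_max_left _ _).trans hB)
    filter_upwards [hall, eventually_ge_atTop 0] with T hT hT0 Δ hΔ hu hl
    have hA0 : 0 ≤ A0 k T Δ := by
      unfold A0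
      apply intervalIntegral.integral_nonneg (by linarith)
      intro t _
      exact mul_nonneg (Zk_nonneg k t) (Real.exp_pos _).le
    have h1 := h (fun t => Zk k t * gg T Δ t) (fun t => XX (cp t) ^ m) (T / 2) (3 * T / 2)
      (ε / (2 * (K + 1)) * A0 k T Δ) (by linarith) ((Zk_cont k).mul (gg_cont T Δ))
      (XX_cp_cont.pow m)
      (fun t => mul_nonneg (Zk_nonneg k t) (Real.exp_pos _).le)
      (fun t => by rw [norm_pow, hL.2.1 t, one_pow])
      (fun j hj1 hj2 => by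
        have := hT j (Finset.mem_Icc.2 ⟨hj1, hj2⟩) Δ hΔ hu hl
        simpa only [AA, pow_mul] using this)
    have h2 : ‖AA k m T Δ‖ ≤ (Real.cos (Real.pi / (p + 2)) + min (ε / 2) (1 / 2)) * A0 k T Δ +
        K * (ε / (2 * (K + 1)) * A0 k T Δ) := h1
    refine h2.trans ?_
    have h3 : K * (ε / (2 * (K + 1))) ≤ ε / 2 := by
      rw [mul_div_assoc', div_le_div_iff₀ (by positivity) (by norm_num)]
      nlinarith
    have h4 : min (ε / 2) (1 / 2) ≤ ε / 2 := min_le_left _ _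
    calc _ = (Real.cos (Real.pi / (p + 2)) + min (ε / 2) (1 / 2) + K * (ε / (2 * (K + 1)))) * A0 k T Δ := by
          ring
      _ ≤ (Real.cos (Real.pi / (p + 2)) + ε) * A0 k T Δ := by
          apply mul_le_mul_of_nonneg_right _ hA0
          linarith

end Pool.Agent.W188.EM
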